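import Mathlib

/-!
# Drury–Arveson quotient modules: the definitions used in the statement

The Drury–Arveson space is taken as Mathlib's reproducing kernel Hilbert space (`RKHS`) on the
open unit ball of `ℂ^d` with kernel `(1 - ⟨z, w⟩)⁻¹`.
-/

namespace Pool.Agent.Lib.MP_15f9af_an.RK

universe u v

/-! ### operators on a Hilbert space -/

section general

variable {E : Type u} [NormedAddCommGroup E]

/-- The `n`-th approximation number (which is the `n`-th singular value on a Hilbert space):
the distance from `T` to the operators of rank at most `n`. -/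
noncomputable def approxNumber [NormedSpace ℂ E] (T : E →L[ℂ] E) (n : ℕ) : ℝ :=
  sInf {r : ℝ | ∃ F : E →L[ℂ] E,
    (∃ u : Fin n → E, ∀ x, F x ∈ Submodule.span ℂ (Set.range u)) ∧ r = ‖T - F‖}

/-- The Schatten class `S^p`: the singular values are `p`-summable. -/
def InSchatten [NormedSpace ℂ E] (p : ℝ) (T : E →L[ℂ] E) : Prop :=
  Summable fun n : ℕ => approxNumber T n ^ p

variable [InnerProductSpace ℂ E] [CompleteSpace E]

/-- The compression `P_{L^⊥} T|_{L^⊥}` of an operator `T` to the orthogonal complement of `L`. -/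
noncomputable def compress (L : Submodule ℂ E) (T : E →L[ℂ] E) : Lᗮ →L[ℂ] Lᗮ :=
  Lᗮ.orthogonalProjectionOnto ∘L T ∘L Lᗮ.subtypeL

/-- The commutator `[S, T^*]`. -/
noncomputable def selfComm (S T : E →L[ℂ] E) : E →L[ℂ] E :=
  S ∘L ContinuousLinearMap.adjoint T - ContinuousLinearMap.adjoint T ∘L S

/-- The quotient by `L` of the module given by the operators `M_1, …, M_d` is `p`-essentially
normal: all commutators `[S_i, S_j^*]`, `S_i = P_{L^⊥} M_i|_{L^⊥}`, lie in `S^p`. -/
def EssentiallyNormal {d : ℕ} (M : Fin d → E →L[ℂ] E) (p : ℝ) (L : Submodule ℂ E) : Prop :=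
  ∀ i j, InSchatten p (selfComm (compress L (M i)) (compress L (M j)))

end general

/-! ### the Drury–Arveson module -/

/-- The open unit ball of `ℂ^d`. -/
abbrev UnitBall (d : ℕ) : Type := Metric.ball (0 : EuclideanSpace ℂ (Fin d)) 1

section rkhs

variable {d : ℕ} {K : Type u} [NormedAddCommGroup K] [InnerProductSpace ℂ K]
  {H : Type v} [NormedAddCommGroup H] [InnerProductSpace ℂ H] [RKHS ℂ H (UnitBall d) K]

variable (d K H) in
/-- `H`, a reproducing kernel Hilbert space of `K`-valued functions on the unit ball, is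
`H²_d ⊗ K`: its kernel is `(1 - ⟨z, w⟩)⁻¹` times the identity of `K`. -/
def IsDruryArveson [CompleteSpace K] [CompleteSpace H] : Prop :=
  ∀ (z w : UnitBall d) (v : K), RKHS.kernel H z w v =
    (1 - ∑ j, (z : EuclideanSpace ℂ (Fin d)) j *
      (starRingEnd ℂ) ((w : EuclideanSpace ℂ (Fin d)) j))⁻¹ • v

/-- `M_1, …, M_d` are the multiplications by the coordinate functions. -/
def IsCoordMul (M : Fin d → H →L[ℂ] H) : Prop :=
  ∀ (i : Fin d) (f : H) (z : UnitBall d), M i f z = (z : EuclideanSpace ℂ (Fin d)) i • f z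

/-- `f` is a homogeneous polynomial of degree `n` with coefficients in `K`. -/
def Homog (n : ℕ) (f : H) : Prop :=
  ∃ c : (Fin d → ℕ) →₀ K, (∀ α ∈ c.support, ∑ j, α j = n) ∧
    ∀ z : UnitBall d, f z =
      c.sum fun α v => (∏ j, (z : EuclideanSpace ℂ (Fin d)) j ^ α j) • v

/-- Graded submodules: closed, invariant, and the closed span of the homogeneous parts. -/
def IsGradedSubmodule (M : Fin d → H →L[ℂ] H) (L : Submodule ℂ H) : Prop :=
  IsClosed (L : Set H) ∧ (∀ i, ∀ f ∈ L, M i f ∈ L) ∧
    ∀ f ∈ L, f ∈ closure (Submodule.span ℂ {g | g ∈ L ∧ ∃ n, Homog n g} : Set H)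

/-- The dimension of `H_n = (P_n ⊗ K) ⊖ L_n`. -/
noncomputable def hilb (L : Submodule ℂ H) (n : ℕ) : ℕ :=
  Set.finrank ℂ {f : H | Homog n f ∧ ∀ g ∈ L, Homog n g → inner ℂ g f = 0}

end rkhs

end Pool.Agent.Lib.MP_15f9af_an.RK
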