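import Mathlib
import Pool.Agent.Lib.MP_15f9af_an.Bridge
import Pool.Agent.Lib.MP_15f9af_an.AD.Taylor
import Pool.Agent.Lib.MP_15f9af_an.RK.Statement

/-!
# The space of square summable families as a reproducing kernel Hilbert space on the ball
-/

namespace Pool.Agent.Lib.MP_15f9af_an.RK

open scoped ENNReal
open Filter Topology

universe u

/-! ### the multinomial series -/

section multinomial

variable {d : ℕ}

/-- the term of the multinomial series -/
noncomputable def mt (x : Fin d → ℂ) (α : Fin d → ℕ) : ℂ :=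
  (Nat.multinomial Finset.univ α : ℂ) * ∏ j, x j ^ α j

/-- the multi-indices of degree at most `N` -/
def md_B (d N : ℕ) : Finset (Fin d → ℕ) :=
  (Finset.range (N + 1)).biUnion fun n => Finset.piAntidiag Finset.univ n

lemma md_mem_B {N : ℕ} {α : Fin d → ℕ} : α ∈ md_B d N ↔ ∑ j, α j ≤ N := by
  simp only [md_B, Finset.mem_biUnion, Finset.mem_range, Finset.mem_piAntidiag]
  constructor
  · rintro ⟨n, hn, h1, -⟩
    rw [← h1] at hn
    exact Nat.lt_succ_iff.mp hn
  · intro h
    exact ⟨∑ j, α j, by omega, rfl, fun _ _ => Finset.mem_univ _⟩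

lemma md_tendsto_B : Tendsto (md_B d) atTop atTop := by
  refine tendsto_atTop_finset_of_monotone ?_ ?_
  · intro M N h α hα
    rw [md_mem_B] at *
    omega
  · intro α
    exact ⟨∑ j, α j, md_mem_B.mpr le_rfl⟩

lemma md_sum_B {R : Type*} [CommSemiring R] (x : Fin d → R) (N : ℕ) :
    ∑ α ∈ md_B d N, (Nat.multinomial Finset.univ α : R) * ∏ j, x j ^ α j =
      ∑ n ∈ Finset.range (N + 1), (∑ j, x j) ^ n := by
  rw [md_B, Finset.sum_biUnion]
  · exact Finset.sum_congr rfl fun n _ => (Finset.sum_pow_eq_sum_piAntidiag _ _ _).symm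
  · intro a _ b _ hab
    rw [Function.onFun, Finset.disjoint_left]
    intro α h1 h2
    rw [Finset.mem_piAntidiag] at h1 h2
    exact hab (h1.1.symm.trans h2.1)

lemma md_summable {x : Fin d → ℝ} (h0 : ∀ j, 0 ≤ x j) (h1 : ∑ j, x j < 1) :
    Summable fun α : Fin d → ℕ => (Nat.multinomial Finset.univ α : ℝ) * ∏ j, x j ^ α j := by
  refine summable_of_sum_le (c := (1 - ∑ j, x j)⁻¹) (fun α => ?_) fun A => ?_
  · exact mul_nonneg (Nat.cast_nonneg _) (Finset.prod_nonneg fun j _ => pow_nonneg (h0 j) _)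
  · obtain ⟨N, hN⟩ := (md_tendsto_B (d := d)).eventually (eventually_ge_atTop A) |>.exists
    have hX : 0 ≤ ∑ j, x j := Finset.sum_nonneg fun j _ => h0 j
    calc ∑ α ∈ A, (Nat.multinomial Finset.univ α : ℝ) * ∏ j, x j ^ α j
        ≤ ∑ α ∈ md_B d N, (Nat.multinomial Finset.univ α : ℝ) * ∏ j, x j ^ α j :=
          Finset.sum_le_sum_of_subset_of_nonneg hN fun α _ _ =>
            mul_nonneg (Nat.cast_nonneg _) (Finset.prod_nonneg fun j _ => pow_nonneg (h0 j) _)
      _ = ∑ n ∈ Finset.range (N + 1), (∑ j, x j) ^ n := md_sum_B x N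
      _ ≤ ∑' n : ℕ, (∑ j, x j) ^ n :=
          (summable_geometric_of_lt_one hX h1).sum_le_tsum _ fun n _ => pow_nonneg hX n
      _ = (1 - ∑ j, x j)⁻¹ := tsum_geometric_of_lt_one hX h1

lemma md_norm (x : Fin d → ℂ) (α : Fin d → ℕ) : ‖mt x α‖ =
    (Nat.multinomial Finset.univ α : ℝ) * ∏ j, ‖x j‖ ^ α j := by
  rw [mt, norm_mul, Complex.norm_natCast, norm_prod]
  simp only [norm_pow]

lemma md_hasSum {x : Fin d → ℂ} (h1 : ∑ j, ‖x j‖ < 1) :
    HasSum (mt x) (1 - ∑ j, x j)⁻¹ := by
  have hs : Summable (mt x) := by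
    refine Summable.of_norm ?_
    simp only [md_norm]
    exact md_summable (fun j => norm_nonneg _) h1
  have h2 := hs.hasSum.comp md_tendsto_B
  have h3 : ‖∑ j, x j‖ < 1 := (norm_sum_le _ _).trans_lt h1
  have h4 := (hasSum_geometric_of_norm_lt_one h3).tendsto_sum_nat.comp (tendsto_add_atTop_nat 1)
  have h5 : (fun N => ∑ α ∈ md_B d N, mt x α) =
      fun N => ∑ n ∈ Finset.range (N + 1), (∑ j, x j) ^ n := by
    funext N
    exact md_sum_B x N
  have h6 : Tendsto (fun N => ∑ α ∈ md_B d N, mt x α) atTop (𝓝 (∑' α, mt x α)) := h2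
  rw [h5] at h6
  have h7 := tendsto_nhds_unique h6 h4
  rw [← h7]
  exact hs.hasSum

end multinomial

/-! ### the functions `e_α` -/

section efun

variable {d : ℕ}

/-- the value of `e_α = ‖z^α‖⁻¹ z^α` at `z` -/
noncomputable def ea (z : Fin d → ℂ) (α : Fin d → ℕ) : ℂ :=
  ((Real.sqrt (zw α))⁻¹ : ℝ) * ∏ j, z j ^ α j

lemma zw_eq (α : Fin d → ℕ) : (zw α)⁻¹ = (Nat.multinomial Finset.univ α : ℝ) := by
  have h := Nat.multinomial_spec Finset.univ α
  have h1 : (mfact α : ℝ) * (Nat.multinomial Finset.univ α : ℝ) = ((deg α).factorial : ℝ) := by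
    have h2 : mfact α * Nat.multinomial Finset.univ α = (deg α).factorial := h
    exact_mod_cast h2
  have h3 : (mfact α : ℝ) ≠ 0 := by exact_mod_cast (mfact_pos α).ne'
  rw [zw, inv_div, ← h1]
  field_simp

lemma ea_mul_conj (z w : Fin d → ℂ) (α : Fin d → ℕ) :
    ea z α * (starRingEnd ℂ) (ea w α) = mt (fun j => z j * (starRingEnd ℂ) (w j)) α := by
  have h1 : (((Real.sqrt (zw α))⁻¹ : ℝ) : ℂ) * (((Real.sqrt (zw α))⁻¹ : ℝ) : ℂ) =
      (Nat.multinomial Finset.univ α : ℂ) := by
    rw [← Complex.ofReal_mul, ← mul_inv, Real.mul_self_sqrt (zw_pos α).le, zw_eq]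
    simp
  rw [ea, ea, mt, map_mul, Complex.conj_ofReal, map_prod]
  simp only [map_pow, mul_pow]
  rw [Finset.prod_mul_distrib, ← h1]
  ring

lemma norm_ea_sq (z : Fin d → ℂ) (α : Fin d → ℕ) : ‖ea z α‖ ^ 2 =
    (Nat.multinomial Finset.univ α : ℝ) * ∏ j, (‖z j‖ ^ 2) ^ α j := by
  have h1 := ea_mul_conj z z α
  have h2 := congrArg norm h1
  rw [norm_mul, RCLike.norm_conj, md_norm, ← sq] at h2
  rw [h2]
  congr 1
  refine Finset.prod_congr rfl fun j _ => ?_
  rw [norm_mul, RCLike.norm_conj, sq]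

lemma summable_ea {z : Fin d → ℂ} (hz : ∑ j, ‖z j‖ ^ 2 < 1) :
    Summable fun α => ‖ea z α‖ ^ 2 := by
  simp only [norm_ea_sq]
  exact md_summable (fun j => by positivity) hz

lemma ball_sum (z : UnitBall d) :
    ∑ j, ‖(z : EuclideanSpace ℂ (Fin d)) j‖ ^ 2 < 1 := by
  have h := z.2
  rw [mem_ball_zero_iff] at h
  have h2 : ‖(z : EuclideanSpace ℂ (Fin d))‖ ^ 2 < 1 := by
    have := norm_nonneg (z : EuclideanSpace ℂ (Fin d))
    nlinarith
  rwa [EuclideanSpace.norm_sq_eq] at h2

end efun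

/-! ### the reproducing kernel Hilbert space -/

section model

variable {d : ℕ} {K : Type u} [NormedAddCommGroup K] [InnerProductSpace ℂ K]

/-- square summable families -/
noncomputable def mkH (c : (Fin d → ℕ) → K) (h : Summable fun α => ‖c α‖ ^ 2) : St.H2 d K :=
  (⟨c, memℓp_gen (by simpa using h)⟩ : lp (fun _ : Fin d → ℕ => K) 2)

omit [InnerProductSpace ℂ K] in
lemma co_mkH (c : (Fin d → ℕ) → K) (h : Summable fun α => ‖c α‖ ^ 2) (α : Fin d → ℕ) :
    St.co (mkH c h) α = c α := rfl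

omit [InnerProductSpace ℂ K] in
lemma hasSum_norm_sq (f : St.H2 d K) : HasSum (fun α => ‖St.co f α‖ ^ 2) (‖f‖ ^ 2) := by
  have h := lp.hasSum_norm (p := 2) (by norm_num) (show lp (fun _ : Fin d → ℕ => K) 2 from f)
  have h2 : (2 : ℝ≥0∞).toReal = ((2 : ℕ) : ℝ) := by norm_num
  rw [h2] at h
  simp only [Real.rpow_natCast] at h
  exact h

lemma hasSum_inner (f g : St.H2 d K) :
    HasSum (fun α => inner ℂ (St.co f α) (St.co g α)) (inner ℂ f g) :=
  lp.hasSum_inner (show lp (fun _ : Fin d → ℕ => K) 2 from f)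
    (show lp (fun _ : Fin d → ℕ => K) 2 from g)

omit [InnerProductSpace ℂ K] in
lemma co_add (f g : St.H2 d K) (α : Fin d → ℕ) : St.co (f + g) α = St.co f α + St.co g α := rfl

lemma co_smul (c : ℂ) (f : St.H2 d K) (α : Fin d → ℕ) : St.co (c • f) α = c • St.co f α := rfl

lemma summable_kf (z : UnitBall d) (v : K) : Summable fun α =>
    ‖(starRingEnd ℂ) (ea (z : EuclideanSpace ℂ (Fin d)) α) • v‖ ^ 2 := by
  have h := (summable_ea (ball_sum z)).mul_right (‖v‖ ^ 2)
  refine h.congr fun α => ?_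
  rw [norm_smul, RCLike.norm_conj, mul_pow]

/-- the kernel functions -/
noncomputable def kf (z : UnitBall d) : K →L[ℂ] St.H2 d K :=
  LinearMap.mkContinuous
    { toFun := fun v => mkH (fun α => (starRingEnd ℂ) (ea (z : EuclideanSpace ℂ (Fin d)) α) • v)
        (summable_kf z v)
      map_add' := fun v w => St.co_ext fun α => by
        rw [co_add, co_mkH, co_mkH, co_mkH, smul_add]
      map_smul' := fun c v => St.co_ext fun α => by
        rw [RingHom.id_apply, co_smul, co_mkH, co_mkH, smul_comm] }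
    (Real.sqrt (∑' α, ‖ea (z : EuclideanSpace ℂ (Fin d)) α‖ ^ 2)) (fun v => by
      refine le_of_sq_le_sq ?_ (by positivity)
      rw [mul_pow, Real.sq_sqrt (tsum_nonneg fun α => by positivity)]
      have h1 := hasSum_norm_sq (mkH (fun α =>
        (starRingEnd ℂ) (ea (z : EuclideanSpace ℂ (Fin d)) α) • v) (summable_kf z v))
      have h2 := ((summable_ea (ball_sum z)).hasSum.mul_right (‖v‖ ^ 2))
      refine le_of_eq (h1.unique (h2.congr_fun fun α => ?_))
      rw [co_mkH, norm_smul, RCLike.norm_conj, mul_pow])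

lemma co_kf (z : UnitBall d) (v : K) (α : Fin d → ℕ) :
    St.co (kf z v) α = (starRingEnd ℂ) (ea (z : EuclideanSpace ℂ (Fin d)) α) • v := rfl

lemma summable_eval (f : St.H2 d K) (z : UnitBall d) :
    Summable fun α => ‖ea (z : EuclideanSpace ℂ (Fin d)) α • St.co f α‖ := by
  refine Summable.of_nonneg_of_le (fun α => norm_nonneg _) (fun α => ?_)
    ((summable_ea (ball_sum z)).add (hasSum_norm_sq f).summable)
  rw [norm_smul]
  nlinarith [sq_nonneg (‖ea (z : EuclideanSpace ℂ (Fin d)) α‖ - ‖St.co f α‖),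
    norm_nonneg (ea (z : EuclideanSpace ℂ (Fin d)) α), norm_nonneg (St.co f α),
    sq_nonneg ‖ea (z : EuclideanSpace ℂ (Fin d)) α‖, sq_nonneg ‖St.co f α‖]

variable [CompleteSpace K]

lemma hasSum_eval (f : St.H2 d K) (z : UnitBall d) :
    HasSum (fun α => ea (z : EuclideanSpace ℂ (Fin d)) α • St.co f α)
      (ContinuousLinearMap.adjoint (kf z) f) := by
  have h1 := (summable_eval f z).of_norm.hasSum
  have h2 : ∑' α, ea (z : EuclideanSpace ℂ (Fin d)) α • St.co f α =
      ContinuousLinearMap.adjoint (kf z) f := by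
    refine ext_inner_left ℂ fun v => ?_
    rw [ContinuousLinearMap.adjoint_inner_right]
    have h3 := h1.mapL (innerSL ℂ v)
    have h4 := hasSum_inner (kf z v) f
    refine h3.unique (h4.congr_fun fun α => ?_)
    rw [co_kf, innerSL_apply_apply, inner_smul_right, inner_smul_left, RingHomCompTriple.comp_apply]
    rfl
  rw [← h2]
  exact h1

/-- the Taylor coefficients of `f` -/
noncomputable def tc (f : St.H2 d K) (α : Fin d → ℕ) : K :=
  (((Real.sqrt (zw α))⁻¹ : ℝ) : ℂ) • St.co f α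

omit [CompleteSpace K] in
lemma ea_smul_co (z : UnitBall d) (f : St.H2 d K) (α : Fin d → ℕ) :
    ea (z : EuclideanSpace ℂ (Fin d)) α • St.co f α =
      (∏ j, (z : EuclideanSpace ℂ (Fin d)) j ^ α j) • tc f α := by
  rw [ea, tc, smul_smul, mul_comm]

lemma hasSum_tc (f : St.H2 d K) (z : UnitBall d) :
    HasSum (fun α => (∏ j, (z : EuclideanSpace ℂ (Fin d)) j ^ α j) • tc f α)
      (ContinuousLinearMap.adjoint (kf z) f) :=
  (hasSum_eval f z).congr_fun fun α => (ea_smul_co z f α).symm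

omit [CompleteSpace K] in
lemma tc_eq_zero {f : St.H2 d K} {α : Fin d → ℕ} : tc f α = 0 ↔ St.co f α = 0 := by
  rw [tc, smul_eq_zero_iff_right]
  rw [Complex.ofReal_ne_zero]
  exact inv_ne_zero (Real.sqrt_pos.mpr (zw_pos α)).ne'

/-- a power series that vanishes on the ball is zero -/
lemma series_unique {c : (Fin d → ℕ) → K} (h : ∀ z : UnitBall d,
    HasSum (fun α => (∏ j, (z : EuclideanSpace ℂ (Fin d)) j ^ α j) • c α) 0) (α : Fin d → ℕ) :
    c α = 0 := by
  have hr : (0 : ℝ) < 1 / (d + 1 : ℝ) := by positivity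
  refine Pool.Agent.Lib.MP_15f9af_an.AD.unique_fun hr (fun w hw => ?_) α
  have hmem : WithLp.toLp 2 w ∈ Metric.ball (0 : EuclideanSpace ℂ (Fin d)) 1 := by
    rw [mem_ball_zero_iff, ← sq_lt_one_iff₀ (norm_nonneg _), EuclideanSpace.norm_sq_eq]
    have h1 : ∀ j : Fin d, ‖(WithLp.toLp 2 w : EuclideanSpace ℂ (Fin d)) j‖ ^ 2 ≤
        1 / (d + 1 : ℝ) := by
      intro j
      have h2 := hw j
      have h3 : 1 / (d + 1 : ℝ) ≤ 1 := by
        rw [div_le_one (by positivity)]
        linarith [(Nat.cast_nonneg d : (0 : ℝ) ≤ d)]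
      have h4 := norm_nonneg (w j)
      change ‖w j‖ ^ 2 ≤ _
      nlinarith
    refine (Finset.sum_le_sum fun j _ => h1 j).trans_lt ?_
    rw [Finset.sum_const, Finset.card_univ, Fintype.card_fin, nsmul_eq_mul, mul_one_div,
      div_lt_one (by positivity)]
    linarith
  exact h ⟨WithLp.toLp 2 w, hmem⟩

lemma eval_injective {f g : St.H2 d K}
    (h : ∀ z : UnitBall d, ContinuousLinearMap.adjoint (kf z) f =
      ContinuousLinearMap.adjoint (kf z) g) : f = g := by
  have h1 : ∀ α, tc f α - tc g α = 0 := by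
    refine series_unique fun z => ?_
    have h2 := (hasSum_tc f z).sub (hasSum_tc g z)
    rw [h z, sub_self] at h2
    exact h2.congr_fun fun α => by rw [smul_sub]
  refine St.co_ext fun α => ?_
  have h3 : tc (f - g) α = 0 := by
    have h4 : tc (f - g) α = tc f α - tc g α := by
      rw [tc, tc, tc, ← smul_sub]
      rfl
    rw [h4, h1]
  have h5 := tc_eq_zero.mp h3
  exact sub_eq_zero.mp h5

/-- `H²_d ⊗ K` as a reproducing kernel Hilbert space on the ball -/
noncomputable instance rkH2 : RKHS ℂ (St.H2 d K) (UnitBall d) K where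
  coeCLM := ContinuousLinearMap.pi fun z => ContinuousLinearMap.adjoint (kf z)
  coeCLM_injective := fun _ _ h => eval_injective fun z => congrFun h z

lemma rkH2_apply (f : St.H2 d K) (z : UnitBall d) :
    f z = ContinuousLinearMap.adjoint (kf z) f := rfl

lemma rkH2_kerFun (w : UnitBall d) : RKHS.kerFun (St.H2 d K) w = kf w := by
  refine ContinuousLinearMap.ext fun v => ext_inner_right ℂ fun f => ?_
  rw [RKHS.kerFun_inner, rkH2_apply, ContinuousLinearMap.adjoint_inner_right]

theorem rkH2_kernel (z w : UnitBall d) (v : K) : RKHS.kernel (St.H2 d K) z w v =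
    (1 - ∑ j, (z : EuclideanSpace ℂ (Fin d)) j *
      (starRingEnd ℂ) ((w : EuclideanSpace ℂ (Fin d)) j))⁻¹ • v := by
  rw [← RKHS.kerFun_apply, rkH2_kerFun, rkH2_apply]
  have hlt : ∑ j, ‖(z : EuclideanSpace ℂ (Fin d)) j *
      (starRingEnd ℂ) ((w : EuclideanSpace ℂ (Fin d)) j)‖ < 1 := by
    have hz := ball_sum z
    have hw := ball_sum w
    have h1 : ∀ j : Fin d, ‖(z : EuclideanSpace ℂ (Fin d)) j *
        (starRingEnd ℂ) ((w : EuclideanSpace ℂ (Fin d)) j)‖ ≤
        (‖(z : EuclideanSpace ℂ (Fin d)) j‖ ^ 2 + ‖(w : EuclideanSpace ℂ (Fin d)) j‖ ^ 2) / 2 := by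
      intro j
      rw [norm_mul, RCLike.norm_conj]
      nlinarith [sq_nonneg (‖(z : EuclideanSpace ℂ (Fin d)) j‖ -
        ‖(w : EuclideanSpace ℂ (Fin d)) j‖)]
    refine (Finset.sum_le_sum fun j _ => h1 j).trans_lt ?_
    rw [← Finset.sum_div, Finset.sum_add_distrib]
    linarith
  refine (hasSum_eval (kf w v) z).unique (((md_hasSum hlt).smul_const v).congr_fun fun α => ?_)
  rw [co_kf, smul_smul, ea_mul_conj]

theorem rkH2_Mz (i : Fin d) (f : St.H2 d K) (z : UnitBall d) :
    (St.Mz i f) z = (z : EuclideanSpace ℂ (Fin d)) i • f z := by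
  rw [rkH2_apply, rkH2_apply]
  have h1 := hasSum_tc (St.Mz i f) z
  have h2 := (hasSum_tc f z).const_smul ((z : EuclideanSpace ℂ (Fin d)) i)
  refine h1.unique ?_
  rw [← (inc_injective i).hasSum_iff]
  · refine h2.congr_fun fun β => ?_
    have h3 : tc (St.Mz i f) (inc i β) = tc f β := by
      have h6 : St.co (St.Mz i f) (inc i β) =
          ((Real.sqrt (((β i + 1 : ℕ) : ℝ) / ((deg β + 1 : ℕ) : ℝ)) : ℝ) : ℂ) • St.co f β := by
        have h7 : Function.update (inc i β) i (inc i β i - 1) = β := dec_inc i β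
        have h8 : St.deg (inc i β) = deg β + 1 := deg_inc i β
        rw [St.co_Mz, h7, h8, inc_same]
      rw [tc, tc, h6, smul_smul, ← Complex.ofReal_mul]
      congr 2
      have h4 := zw_pos β
      have h5 : (0 : ℝ) < ((β i + 1 : ℕ) : ℝ) / ((deg β + 1 : ℕ) : ℝ) := by positivity
      rw [zw_inc, Real.sqrt_mul h4.le, mul_inv, mul_assoc, inv_mul_cancel₀ (Real.sqrt_pos.mpr h5).ne',
        mul_one]
    rw [Function.comp_apply, h3, smul_smul]
    congr 1
    rw [← Finset.mul_prod_erase Finset.univ _ (Finset.mem_univ i),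
      ← Finset.mul_prod_erase Finset.univ (fun j => (z : EuclideanSpace ℂ (Fin d)) j ^ β j)
        (Finset.mem_univ i), inc_same, pow_succ', mul_assoc]
    congr 2
    refine Finset.prod_congr rfl fun j hj => ?_
    rw [inc_ne (Finset.ne_of_mem_erase hj)]
  · intro α hα
    have h0 : α i = 0 := by
      by_contra h
      exact hα ⟨dec i α, inc_dec i α h⟩
    have h3 : tc (St.Mz i f) α = 0 := by
      rw [tc_eq_zero, St.co_Mz, h0]
      simp
    rw [h3, smul_zero]

theorem rkH2_homog (n : ℕ) (f : St.H2 d K) : Homog n f ↔ St.Homog n f := by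
  constructor
  · rintro ⟨c, hc, hf⟩ α hα
    have h1 : ∀ z : UnitBall d, HasSum (fun α =>
        (∏ j, (z : EuclideanSpace ℂ (Fin d)) j ^ α j) • (tc f α - c α)) 0 := by
      intro z
      have h2 : HasSum (fun α => (∏ j, (z : EuclideanSpace ℂ (Fin d)) j ^ α j) • c α) (f z) := by
        rw [hf z, Finsupp.sum]
        refine hasSum_sum_of_ne_finset_zero fun α hα => ?_
        rw [Finsupp.notMem_support_iff.mp hα, smul_zero]
      have h3 := (hasSum_tc f z).sub h2
      rw [rkH2_apply, sub_self] at h3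
      exact h3.congr_fun fun α => by rw [smul_sub]
    have h2 := sub_eq_zero.mp (series_unique h1 α)
    rw [← tc_eq_zero, h2]
    by_contra h3
    exact hα (hc α (Finsupp.mem_support_iff.mpr h3))
  · intro h
    have hsup : ∀ α, tc f α ≠ 0 → α ∈ Finset.piAntidiag Finset.univ n := by
      intro α hα
      rw [Finset.mem_piAntidiag]
      refine ⟨?_, fun _ _ => Finset.mem_univ _⟩
      by_contra h1
      exact hα (tc_eq_zero.mpr (h α h1))
    refine ⟨Finsupp.onFinset (Finset.piAntidiag Finset.univ n) (tc f) hsup, ?_, ?_⟩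
    · intro α hα
      rw [Finsupp.mem_support_iff, Finsupp.onFinset_apply] at hα
      exact (Finset.mem_piAntidiag.mp (hsup α hα)).1
    · intro z
      rw [rkH2_apply, Finsupp.onFinset_sum]
      · refine (hasSum_tc f z).unique (hasSum_sum_of_ne_finset_zero fun α hα => ?_)
        have h1 : tc f α = 0 := by
          by_contra h2
          exact hα (hsup α h2)
        rw [h1, smul_zero]
      · intro α
        rw [smul_zero]

end model

end Pool.Agent.Lib.MP_15f9af_an.RK
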