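import Mathlib
import Pool.Agent.Lib.MP_15f9af_an.RK.Statement

/-!
# Unitary invariance of essential normality
-/

namespace Pool.Agent.Lib.MP_15f9af_an.RK

open scoped InnerProductSpace

universe u v

section transport

variable {E : Type u} [NormedAddCommGroup E] [InnerProductSpace ℂ E]
  {F : Type v} [NormedAddCommGroup F] [InnerProductSpace ℂ F]

/-- the operator `V T V⁻¹` -/
noncomputable def cj (V : E ≃ₗᵢ[ℂ] F) (T : E →L[ℂ] E) : F →L[ℂ] F :=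
  (V.toContinuousLinearEquiv : E →L[ℂ] F) ∘L T ∘L (V.symm.toContinuousLinearEquiv : F →L[ℂ] E)

theorem cj_apply (V : E ≃ₗᵢ[ℂ] F) (T : E →L[ℂ] E) (y : F) : cj V T y = V (T (V.symm y)) := rfl

theorem cj_symm_cj (V : E ≃ₗᵢ[ℂ] F) (T : E →L[ℂ] E) : cj V.symm (cj V T) = T := by
  ext x
  rw [cj_apply, cj_apply]
  simp

theorem cj_sub (V : E ≃ₗᵢ[ℂ] F) (S T : E →L[ℂ] E) : cj V (S - T) = cj V S - cj V T := by
  ext x
  rw [cj_apply, sub_apply, map_sub]
  rfl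

theorem cj_comp (V : E ≃ₗᵢ[ℂ] F) (S T : E →L[ℂ] E) : cj V (S ∘L T) = cj V S ∘L cj V T := by
  ext x
  rw [cj_apply, ContinuousLinearMap.comp_apply, ContinuousLinearMap.comp_apply, cj_apply,
    cj_apply, V.symm_apply_apply]

theorem norm_cj_le (V : E ≃ₗᵢ[ℂ] F) (T : E →L[ℂ] E) : ‖cj V T‖ ≤ ‖T‖ := by
  refine ContinuousLinearMap.opNorm_le_bound _ (norm_nonneg _) fun y => ?_
  rw [cj_apply, V.norm_map]
  refine (T.le_opNorm _).trans ?_
  rw [V.symm.norm_map]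

theorem norm_cj (V : E ≃ₗᵢ[ℂ] F) (T : E →L[ℂ] E) : ‖cj V T‖ = ‖T‖ := by
  refine le_antisymm (norm_cj_le V T) ?_
  have := norm_cj_le V.symm (cj V T)
  rwa [cj_symm_cj] at this

theorem approx_set_cj (V : E ≃ₗᵢ[ℂ] F) (T : E →L[ℂ] E) (n : ℕ) {r : ℝ}
    (h : ∃ G : E →L[ℂ] E, (∃ u : Fin n → E, ∀ x, G x ∈ Submodule.span ℂ (Set.range u)) ∧
      r = ‖T - G‖) :
    ∃ G : F →L[ℂ] F, (∃ u : Fin n → F, ∀ x, G x ∈ Submodule.span ℂ (Set.range u)) ∧
      r = ‖cj V T - G‖ := by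
  obtain ⟨G, ⟨u, hu⟩, rfl⟩ := h
  refine ⟨cj V G, ⟨fun i => V (u i), fun x => ?_⟩, ?_⟩
  · rw [cj_apply]
    have h1 : V (G (V.symm x)) ∈
        (Submodule.span ℂ (Set.range u)).map (V.toLinearEquiv : E →ₗ[ℂ] F) :=
      ⟨_, hu _, rfl⟩
    rw [Submodule.map_span, ← Set.range_comp] at h1
    exact h1
  · rw [← cj_sub, norm_cj]

theorem approxNumber_cj (V : E ≃ₗᵢ[ℂ] F) (T : E →L[ℂ] E) (n : ℕ) :
    approxNumber (cj V T) n = approxNumber T n := by
  unfold approxNumber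
  congr 1
  ext r
  constructor
  · intro h
    have := approx_set_cj V.symm (cj V T) n h
    rwa [cj_symm_cj] at this
  · exact approx_set_cj V T n

theorem inSchatten_cj (V : E ≃ₗᵢ[ℂ] F) (T : E →L[ℂ] E) (p : ℝ) :
    InSchatten p (cj V T) ↔ InSchatten p T := by
  unfold InSchatten
  simp only [approxNumber_cj]

variable [CompleteSpace E] [CompleteSpace F]

theorem adjoint_cj (V : E ≃ₗᵢ[ℂ] F) (T : E →L[ℂ] E) :
    ContinuousLinearMap.adjoint (cj V T) = cj V (ContinuousLinearMap.adjoint T) := by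
  ext x
  refine ext_inner_right ℂ fun y => ?_
  rw [ContinuousLinearMap.adjoint_inner_left, cj_apply, cj_apply, V.inner_map_eq_flip,
    ContinuousLinearMap.adjoint_inner_left, ← V.symm.inner_map_map x, V.symm_apply_apply]

theorem selfComm_cj (V : E ≃ₗᵢ[ℂ] F) (S T : E →L[ℂ] E) :
    selfComm (cj V S) (cj V T) = cj V (selfComm S T) := by
  unfold selfComm
  rw [adjoint_cj, cj_sub, cj_comp, cj_comp]

/-- the unitary `L^⊥ → (V L)^⊥` -/
noncomputable def orthoEquiv (V : E ≃ₗᵢ[ℂ] F) (L : Submodule ℂ E) :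
    Lᗮ ≃ₗᵢ[ℂ] (L.map (V.toLinearEquiv : E →ₗ[ℂ] F))ᗮ where
  toFun := fun x => ⟨V x, by
    rw [Submodule.mem_orthogonal]
    rintro _ ⟨y, hy, rfl⟩
    have h1 : ⟪V y, V x⟫_ℂ = ⟪y, (x : E)⟫_ℂ := V.inner_map_map _ _
    exact h1.trans ((Submodule.mem_orthogonal _ _).1 x.2 y hy)⟩
  map_add' := fun x y => by
    ext
    simp
  map_smul' := fun c x => by
    ext
    simp
  invFun := fun y => ⟨V.symm y, by
    rw [Submodule.mem_orthogonal]
    intro x hx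
    have h1 : ⟪V x, V (V.symm y)⟫_ℂ = ⟪x, V.symm y⟫_ℂ := V.inner_map_map _ _
    rw [← h1, V.apply_symm_apply]
    exact (Submodule.mem_orthogonal _ _).1 y.2 _ ⟨x, hx, rfl⟩⟩
  left_inv := fun x => by
    ext
    simp
  right_inv := fun y => by
    ext
    simp
  norm_map' := fun x => by
    show ‖V x‖ = ‖(x : E)‖
    exact V.norm_map _

theorem orthoEquiv_coe (V : E ≃ₗᵢ[ℂ] F) (L : Submodule ℂ E) (x : Lᗮ) :
    ((orthoEquiv V L x : (L.map (V.toLinearEquiv : E →ₗ[ℂ] F))ᗮ) : F) = V (x : E) := rfl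

theorem orthoEquiv_symm_coe (V : E ≃ₗᵢ[ℂ] F) (L : Submodule ℂ E)
    (y : (L.map (V.toLinearEquiv : E →ₗ[ℂ] F))ᗮ) :
    (((orthoEquiv V L).symm y : Lᗮ) : E) = V.symm (y : F) := rfl

theorem compress_cj (V : E ≃ₗᵢ[ℂ] F) (L : Submodule ℂ E) (T : E →L[ℂ] E) :
    compress (L.map (V.toLinearEquiv : E →ₗ[ℂ] F)) (cj V T) =
      cj (orthoEquiv V L) (compress L T) := by
  ext y
  refine congrArg _ (ext_inner_left ℂ fun w => ?_)
  rw [cj_apply]
  have h1 : ⟪w, compress (L.map (V.toLinearEquiv : E →ₗ[ℂ] F)) (cj V T) y⟫_ℂ =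
      ⟪(w : F), cj V T (y : F)⟫_ℂ :=
    Submodule.inner_orthogonalProjectionOnto_eq_of_mem_left _ _
  have h2 : ⟪w, orthoEquiv V L (compress L T ((orthoEquiv V L).symm y))⟫_ℂ =
      ⟪(orthoEquiv V L).symm w, compress L T ((orthoEquiv V L).symm y)⟫_ℂ := by
    rw [← (orthoEquiv V L).inner_map_map ((orthoEquiv V L).symm w),
      (orthoEquiv V L).apply_symm_apply]
  have h3 : ⟪(orthoEquiv V L).symm w, compress L T ((orthoEquiv V L).symm y)⟫_ℂ =
      ⟪V.symm (w : F), T (V.symm (y : F))⟫_ℂ :=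
    Submodule.inner_orthogonalProjectionOnto_eq_of_mem_left _ _
  rw [h1, h2, h3, cj_apply, ← V.inner_map_map (V.symm (w : F)), V.apply_symm_apply]

theorem essentiallyNormal_cj {d : ℕ} (V : E ≃ₗᵢ[ℂ] F) (M : Fin d → E →L[ℂ] E) (p : ℝ)
    (L : Submodule ℂ E) :
    EssentiallyNormal (fun i => cj V (M i)) p (L.map (V.toLinearEquiv : E →ₗ[ℂ] F)) ↔
      EssentiallyNormal M p L := by
  unfold EssentiallyNormal
  simp only [compress_cj, selfComm_cj, inSchatten_cj]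

end transport

end Pool.Agent.Lib.MP_15f9af_an.RK
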