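import Mathlib

/-!
# Reproducing kernel Hilbert spaces with the same kernel are unitarily equivalent
-/

namespace Pool.Agent.Lib.MP_15f9af_an.RK

open scoped InnerProductSpace

universe u v w x

section uniq

variable {X : Type w} {V : Type u} [NormedAddCommGroup V] [InnerProductSpace ℂ V]
  [CompleteSpace V]
  {H₁ : Type v} [NormedAddCommGroup H₁] [InnerProductSpace ℂ H₁] [CompleteSpace H₁]
  {H₂ : Type x} [NormedAddCommGroup H₂] [InnerProductSpace ℂ H₂] [CompleteSpace H₂]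

variable (H₁) in
/-- linear combinations of kernel functions -/
noncomputable def kerLin [RKHS ℂ H₁ X V] : (X × V →₀ ℂ) →ₗ[ℂ] H₁ :=
  Finsupp.linearCombination ℂ fun p : X × V => RKHS.kerFun H₁ p.1 p.2

theorem kerLin_single [RKHS ℂ H₁ X V] (x : X) (v : V) :
    kerLin H₁ (Finsupp.single (x, v) 1) = RKHS.kerFun H₁ x v := by
  unfold kerLin
  rw [Finsupp.linearCombination_single, one_smul]

theorem denseRange_kerLin [RKHS ℂ H₁ X V] : DenseRange (kerLin H₁ : (X × V →₀ ℂ) →ₗ[ℂ] H₁) := by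
  have h1 : LinearMap.range (kerLin H₁ : (X × V →₀ ℂ) →ₗ[ℂ] H₁) =
      Submodule.span ℂ {RKHS.kerFun H₁ x v | (x : X) (v : V)} := by
    unfold kerLin
    rw [Finsupp.range_linearCombination]
    congr 1
    ext f
    constructor
    · rintro ⟨⟨x, v⟩, rfl⟩
      exact ⟨x, v, rfl⟩
    · rintro ⟨x, v, rfl⟩
      exact ⟨(x, v), rfl⟩
  have h2 := RKHS.kerFun_dense (𝕜 := ℂ) (X := X) (V := V) H₁
  rw [← h1, ← Submodule.dense_iff_topologicalClosure_eq_top] at h2
  exact h2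

theorem inner_kerLin_eq [RKHS ℂ H₁ X V] [RKHS ℂ H₂ X V]
    (h : ∀ (x y : X) (v : V), RKHS.kernel H₁ x y v = RKHS.kernel H₂ x y v)
    (s t : X × V →₀ ℂ) :
    ⟪kerLin H₁ s, kerLin H₁ t⟫_ℂ = ⟪kerLin H₂ s, kerLin H₂ t⟫_ℂ := by
  unfold kerLin
  rw [Finsupp.linearCombination_apply, Finsupp.linearCombination_apply,
    Finsupp.linearCombination_apply, Finsupp.linearCombination_apply, Finsupp.sum_inner,
    Finsupp.sum_inner]
  refine Finsupp.sum_congr fun p _ => ?_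
  rw [Finsupp.inner_sum, Finsupp.inner_sum]
  refine Finsupp.sum_congr fun q _ => ?_
  rw [inner_smul_left, inner_smul_right, inner_smul_left, inner_smul_right,
    ← RKHS.kernel_inner, ← RKHS.kernel_inner, h]

theorem exists_unitary [RKHS ℂ H₁ X V] [RKHS ℂ H₂ X V]
    (h : ∀ (x y : X) (v : V), RKHS.kernel H₁ x y v = RKHS.kernel H₂ x y v) :
    ∃ U : H₁ ≃ₗᵢ[ℂ] H₂, ∀ (f : H₁) (x : X), U f x = f x := by
  have hnorm : ∀ s : X × V →₀ ℂ, ‖kerLin H₂ (LinearEquiv.refl ℂ (X × V →₀ ℂ) s)‖ =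
      ‖kerLin H₁ s‖ := by
    intro s
    have h1 := inner_kerLin_eq h s s
    rw [inner_self_eq_norm_sq_to_K, inner_self_eq_norm_sq_to_K] at h1
    have h2 : ‖kerLin H₁ s‖ ^ 2 = ‖kerLin H₂ s‖ ^ 2 := by exact_mod_cast h1
    rw [LinearEquiv.refl_apply]
    exact ((sq_eq_sq₀ (norm_nonneg _) (norm_nonneg _)).1 h2).symm
  set U : H₁ ≃ₗᵢ[ℂ] H₂ := (LinearEquiv.refl ℂ (X × V →₀ ℂ)).extendOfIsometry
    (kerLin H₁) (kerLin H₂) denseRange_kerLin denseRange_kerLin hnorm with hU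
  have hk : ∀ (x : X) (v : V), U (RKHS.kerFun H₁ x v) = RKHS.kerFun H₂ x v := by
    intro x v
    rw [← kerLin_single, ← kerLin_single, hU, LinearEquiv.extendOfIsometry_eq,
      LinearEquiv.refl_apply]
  refine ⟨U, fun f x => ?_⟩
  refine ext_inner_left ℂ fun v => ?_
  rw [← RKHS.kerFun_inner, ← RKHS.kerFun_inner, ← hk, U.inner_map_map]

end uniq

end Pool.Agent.Lib.MP_15f9af_an.RK
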