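import Mathlib
import Pool.Agent.Lib.MP_15f9af_an.RK.Statement
import Pool.Agent.Lib.MP_15f9af_an.RK.Uniq
import Pool.Agent.Lib.MP_15f9af_an.RK.Transport
import Pool.Agent.Lib.MP_15f9af_an.RK.Model
import Pool.Agent.Lib.MP_15f9af_an.AD.Main

/-!
# The Arveson–Douglas theorem for the reproducing kernel Hilbert space with kernel
`(1 - ⟨z, w⟩)⁻¹`
-/

namespace Pool.Agent.Lib.MP_15f9af_an.RK

open Filter

universe u v

theorem rk_inSchatten_iff {E : Type*} [NormedAddCommGroup E] [NormedSpace ℂ E] (T : E →L[ℂ] E)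
    (p : ℝ) : InSchatten p T ↔ St.InSchatten p T := Iff.rfl

section transfer

variable {d : ℕ} {K : Type u} [NormedAddCommGroup K] [InnerProductSpace ℂ K]
  [FiniteDimensional ℂ K] [CompleteSpace K]
  {H : Type v} [NormedAddCommGroup H] [InnerProductSpace ℂ H] [CompleteSpace H]
  [RKHS ℂ H (UnitBall d) K]

omit [FiniteDimensional ℂ K] [CompleteSpace K] [CompleteSpace H] in
theorem homog_congr {H₂ : Type*} [NormedAddCommGroup H₂] [InnerProductSpace ℂ H₂]
    [RKHS ℂ H₂ (UnitBall d) K] {f : H} {g : H₂} (h : ∀ z : UnitBall d, g z = f z) (n : ℕ) :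
    Homog n f ↔ Homog n g := by
  unfold Homog
  simp only [h]

/-- the theorem for every realisation of the Drury–Arveson space -/
theorem rk_full (hH : IsDruryArveson d K H) (M : Fin d → H →L[ℂ] H) (hM : IsCoordMul M)
    (L : Submodule ℂ H) (hL : IsGradedSubmodule M L) :
    ∃ P : Polynomial ℚ,
      (∀ᶠ n : ℕ in atTop, (hilb L n : ℚ) = P.eval (n : ℚ)) ∧
      ∀ p : ℝ, 1 ≤ p → (P ≠ 0 → (P.natDegree : ℝ) + 1 < p) → EssentiallyNormal M p L := by
  obtain ⟨U, hU⟩ := exists_unitary (H₁ := H) (H₂ := St.H2 d K) (X := UnitBall d) (V := K)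
    (fun x y v => (hH x y v).trans (rkH2_kernel x y v).symm)
  set L' : Submodule ℂ (St.H2 d K) := L.map (U.toLinearEquiv : H →ₗ[ℂ] St.H2 d K) with hL'
  have hmem : ∀ f : H, f ∈ L → U f ∈ L' := fun f hf => ⟨f, hf, rfl⟩
  have hmem' : ∀ g ∈ L', ∃ f ∈ L, U f = g := fun g hg => hg
  have hcj : ∀ i, cj U (M i) = (St.Mz i : St.H2 d K →L[ℂ] St.H2 d K) := by
    intro i
    ext1 g
    refine RKHS.ext (𝕜 := ℂ) (X := UnitBall d) (V := K) fun z => ?_
    rw [cj_apply, hU, hM i, rkH2_Mz, ← hU, U.apply_symm_apply]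
  have hMU : ∀ i f, (St.Mz i : St.H2 d K →L[ℂ] St.H2 d K) (U f) = U (M i f) := by
    intro i f
    rw [← hcj, cj_apply, U.symm_apply_apply]
  have hhom : ∀ n (f : H), Homog n f ↔ St.Homog n (U f) := by
    intro n f
    rw [← rkH2_homog]
    exact homog_congr (hU f) n
  -- the image is a graded submodule
  have hL2 : St.IsGradedSubmodule L' := by
    have hcl : IsClosed (L' : Set (St.H2 d K)) := by
      have h1 := U.toHomeomorph.isClosedMap _ hL.1
      exact h1
    refine ⟨hcl, ?_, ?_⟩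
    · rintro i g hg
      obtain ⟨f, hf, rfl⟩ := hmem' g hg
      rw [hMU]
      exact hmem _ (hL.2.1 i f hf)
    · intro g hg
      obtain ⟨f, hf, rfl⟩ := hmem' g hg
      have h1 := hL.2.2 f hf
      have h2 : U f ∈ closure (U '' (Submodule.span ℂ {g | g ∈ L ∧ ∃ n, Homog n g} : Set H)) :=
        image_closure_subset_closure_image U.continuous ⟨f, h1, rfl⟩
      refine closure_mono ?_ h2
      rintro _ ⟨x, hx, rfl⟩
      have h3 : Submodule.span ℂ {g | g ∈ L ∧ ∃ n, Homog n g} ≤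
          (Submodule.span ℂ {g | g ∈ L' ∧ ∃ n, St.Homog n g}).comap
            (U.toLinearEquiv : H →ₗ[ℂ] St.H2 d K) := by
        rw [Submodule.span_le]
        rintro y ⟨hy, n, hn⟩
        exact Submodule.subset_span ⟨hmem y hy, n, (hhom n y).1 hn⟩
      exact h3 hx
  -- the Hilbert functions agree
  have hhilb : ∀ n, hilb L n = St.hilb L' n := by
    intro n
    have h2 : (U.toLinearEquiv : H →ₗ[ℂ] St.H2 d K) ''
        {f : H | Homog n f ∧ ∀ g ∈ L, Homog n g → inner ℂ g f = 0} =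
        {f : St.H2 d K | St.Homog n f ∧ ∀ g ∈ L', St.Homog n g → inner ℂ g f = 0} := by
      ext g
      constructor
      · rintro ⟨f, ⟨hf1, hf2⟩, rfl⟩
        refine ⟨(hhom n f).1 hf1, ?_⟩
        rintro g hg1 hg2
        obtain ⟨x, hx, rfl⟩ := hmem' g hg1
        have h3 := hf2 x hx ((hhom n x).2 hg2)
        rw [← h3]
        exact U.inner_map_map x f
      · rintro ⟨hg1, hg2⟩
        refine ⟨U.symm g, ⟨?_, ?_⟩, U.apply_symm_apply g⟩
        · rw [hhom, U.apply_symm_apply]
          exact hg1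
        · intro x hx hxn
          have h3 := hg2 (U x) (hmem x hx) ((hhom n x).1 hxn)
          rw [← U.inner_map_map, U.apply_symm_apply]
          exact h3
    unfold hilb St.hilb Set.finrank
    rw [← h2, ← Submodule.map_span]
    exact (LinearEquiv.finrank_eq (U.toLinearEquiv.submoduleMap _))
  obtain ⟨P, hP, hdoug⟩ := AD.douglas_hilb L' hL2
  refine ⟨P, ?_, fun p hp1 hp => ?_⟩
  · simpa only [hhilb] using hP
  · have h1 := hdoug p hp1 hp
    rw [← essentiallyNormal_cj U M p L]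
    simp only [hcj]
    exact h1

end transfer

end Pool.Agent.Lib.MP_15f9af_an.RK
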